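import Mathlib
import Pool.Agent.Q35.SM.Stm

/-!
Project SM: basic lemmas on the values of multilinear forms and polynomials
-/

set_option autoImplicit false

namespace Pool.Agent.Q298.SM

open Finset Function MvPolynomial
open Pool.Agent.Q35.SM

section

variable {K : Type} [Field K] {ι : Type} [Fintype ι] [DecidableEq ι] {n : ι → ℕ}

/-- the multilinear map `x ↦ ev A c x` -/
noncomputable def evM (A : Type) [CommRing A] [Algebra K A] (c : Cof K n) :
    MultilinearMap A (fun i : ι => Fin (n i + 1) → A) A :=
  ∑ a, algebraMap K A (c a) •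
    (MultilinearMap.mkPiAlgebra A ι A).compLinearMap (fun i => LinearMap.proj (a i))

theorem evM_apply (A : Type) [CommRing A] [Algebra K A] (c : Cof K n) (x : Vs A n) :
    evM A c x = ev A c x := by
  unfold evM ev
  rw [_root_.sum_apply]
  refine Finset.sum_congr rfl fun a _ => ?_
  simp

theorem ev_lin (A : Type) [CommRing A] [Algebra K A] (c : Cof K n) (x : Vs A n) (i : ι)
    (v : Fin (n i + 1) → A) :
    ev A c (update x i v) = ∑ a, v a * ev A c (update x i (Pi.single a 1)) := by
  have h : ∀ w : Fin (n i + 1) → A, ev A c (update x i w) = (evM A c).toLinearMap x i w := by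
    intro w
    rw [MultilinearMap.toLinearMap_apply, evM_apply]
  rw [h]
  conv_lhs => rw [← Finset.univ_sum_single v]
  rw [map_sum]
  refine Finset.sum_congr rfl fun a _ => ?_
  rw [h]
  have : (Pi.single a (v a) : Fin (n i + 1) → A) = v a • Pi.single a 1 := by
    rw [← Pi.single_smul]
    simp
  rw [this, map_smul, smul_eq_mul]

theorem ev_map {A B : Type} [CommRing A] [Algebra K A] [CommRing B] [Algebra K B] (φ : A →ₐ[K] B)
    (c : Cof K n) (x : Vs A n) : ev B c (fun i a => φ (x i a)) = φ (ev A c x) := by
  unfold ev
  rw [map_sum]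
  refine Finset.sum_congr rfl fun a _ => ?_
  rw [map_mul, map_prod, AlgHom.commutes]

theorem pv_map {A B : Type} [CommRing A] [Algebra K A] [CommRing B] [Algebra K B] (φ : A →ₐ[K] B)
    (g : Pol K n) (x : Vs A n) : pv B g (fun i a => φ (x i a)) = φ (pv A g x) := by
  unfold pv
  have h : (aeval (fun v : Var n => φ (x v.1 v.2)) : MvPolynomial (Var n) K →ₐ[K] B) =
      φ.comp (aeval (fun v : Var n => x v.1 v.2)) := by
    apply MvPolynomial.algHom_ext
    intro v
    simp
  rw [h]
  rfl

/-- `update` commutes with a map on coordinates -/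
theorem upd_map {A B : Type} (φ : A → B) (x : Vs A n) (i : ι) (v : Fin (n i + 1) → A) :
    (fun l a => φ (update x i v l a)) = update (fun l a => φ (x l a)) i (fun a => φ (v a)) := by
  funext l a
  by_cases h : l = i
  · subst h
    simp
  · simp [h]

theorem upd_single {A B : Type} [CommRing A] [Algebra K A] [CommRing B] [Algebra K B]
    (φ : A →ₐ[K] B) (x : Vs A n) (i : ι) (a : Fin (n i + 1)) :
    (fun l b => φ (update x i (Pi.single a 1) l b)) =
      update (fun l b => φ (x l b)) i (Pi.single a 1) := by
  rw [upd_map]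
  congr 1
  funext b
  by_cases h : b = a
  · subst h
    simp
  · simp [h]

end

end Pool.Agent.Q298.SM
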