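import Pool.Agent.Q298.SM.B1

/-!
Project SM, job B
-/

set_option autoImplicit false

namespace Pool.Agent.Q298.SM

open MvPolynomial Algebra Function

section

variable {K F : Type} [Field K] [Field F] [Algebra K F] {N : ℕ}

/-- the line through the point `y` -/
noncomputable def lin {L : Type} [Field L] [Algebra F L] (y : Fin N → L) :
    MvPolynomial (Fin N) F →ₐ[F] Polynomial L :=
  aeval (fun a => Polynomial.C (y a) * Polynomial.X)

theorem lin_hom {L : Type} [Field L] [Algebra F L] (y : Fin N → L) (g : MvPolynomial (Fin N) F)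
    (e : ℕ) (hg : g.IsHomogeneous e) : lin y g = Polynomial.C (aeval y g) * Polynomial.X ^ e := by
  unfold lin
  rw [aeval_def, aeval_def, eval₂_eq', eval₂_eq', map_sum, Finset.sum_mul]
  refine Finset.sum_congr rfl fun m hm => ?_
  have h1 : ∑ a, m a = e := by
    have := hg (mem_support_iff.1 hm)
    rw [Finsupp.weight_apply, Finsupp.sum_fintype _ _ (by simp)] at this
    simpa using this
  have h2 : ∏ a, (Polynomial.C (y a) * Polynomial.X) ^ m a =
      Polynomial.C (∏ a, y a ^ m a) * (Polynomial.X : Polynomial L) ^ e := by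
    rw [← h1, ← Finset.prod_pow_eq_pow_sum, map_prod, ← Finset.prod_mul_distrib]
    refine Finset.prod_congr rfl fun a _ => ?_
    rw [mul_pow, map_pow]
  rw [h2, map_mul, mul_assoc]
  rfl

theorem lin_lf {L : Type} [Field L] [Algebra F L] [Algebra K L] [IsScalarTower K F L]
    (y : Fin N → L) (v : Fin N → K) :
    lin y (lf F v) = Polynomial.C (∑ a, algebraMap K L (v a) * y a) * Polynomial.X := by
  unfold lin lf
  rw [map_sum, map_sum, Finset.sum_mul]
  refine Finset.sum_congr rfl fun a _ => ?_
  rw [← algebraMap_smul F (v a) (X a : MvPolynomial (Fin N) F), map_smul, aeval_X, map_mul,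
    mul_assoc, IsScalarTower.algebraMap_apply K F L, Algebra.smul_def,
    Polynomial.algebraMap_apply]

/-- injective matrices with columns in the kernel of given linear forms -/
theorem exists_mat (r : ℕ) (hr : r ≤ N) (v : Fin (N - r) → (Fin N → K)) :
    ∃ M : Matrix (Fin N) (Fin r) K, (∀ i b, ∑ a, v i a * M a b = 0) ∧
      ∃ g : Fin r → Fin N, (M.submatrix g id).det ≠ 0 := by
  let V : (Fin N → K) →ₗ[K] (Fin (N - r) → K) := (Matrix.of v).mulVecLin
  have h1 : r ≤ Module.finrank K (LinearMap.ker V) := by
    have h2 := V.finrank_range_add_finrank_ker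
    have h3 := Submodule.finrank_le (LinearMap.range V)
    rw [Module.finrank_pi, Fintype.card_fin] at h2
    rw [Module.finrank_pi, Fintype.card_fin] at h3
    omega
  obtain ⟨f, hf⟩ := exists_linearIndependent_of_le_finrank h1
  let A : Matrix (Fin r) (Fin N) K := fun b a => (f b : Fin N → K) a
  have hA : LinearIndependent K A.row :=
    hf.map' (LinearMap.ker V).subtype (Submodule.ker_subtype _)
  obtain ⟨g, hg⟩ := exists_minor A hA
  refine ⟨A.transpose, ?_, g, ?_⟩
  · intro i b
    have h4 : V (f b) = 0 := (f b).2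
    exact congrFun h4 i
  · have h5 : (A.transpose.submatrix g id) = (A.submatrix id g).transpose := rfl
    rw [h5, Matrix.det_transpose]
    exact hg

theorem mat_inj {L : Type} [Field L] [Algebra K L] {r : ℕ} (M : Matrix (Fin N) (Fin r) K)
    (g : Fin r → Fin N) (hg : (M.submatrix g id).det ≠ 0) (z : Fin r → L) (hz : z ≠ 0) :
    ∃ a, ∑ b, algebraMap K L (M a b) * z b ≠ 0 := by
  by_contra hcon
  push Not at hcon
  apply hz
  have h1 : ((M.submatrix g id).map (algebraMap K L)).det ≠ 0 := by
    rw [← RingHom.mapMatrix_apply, ← RingHom.map_det]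
    intro h
    exact hg ((algebraMap K L).injective (by rw [h, map_zero]))
  apply Matrix.eq_zero_of_mulVec_eq_zero h1
  funext b
  exact hcon (g b)

theorem exists_prime [CharZero K] (r : ℕ) (hr : r ≤ N) (G : Finset (MvPolynomial (Fin N) F))
    (hG : ∀ g ∈ G, ∃ e, g.IsHomogeneous e)
    (hM : ∀ M : Matrix (Fin N) (Fin r) K, ∃ z : Fin r → AlgebraicClosure F, z ≠ 0 ∧
      ∀ g ∈ G, aeval (fun a => ∑ b, algebraMap K (AlgebraicClosure F) (M a b) * z b) g = 0) :
    ∃ p : Ideal (MvPolynomial (Fin N) F), p.IsPrime ∧ (∀ g ∈ G, g ∈ p) ∧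
      ¬ (trdeg F (MvPolynomial (Fin N) F ⧸ p) ≤ ((N - r : ℕ) : Cardinal)) := by
  by_contra hcon
  push Not at hcon
  have hinf : Infinite K := inferInstance
  obtain ⟨v, hv⟩ := forms (K := K) (N - r) (Ideal.span (G : Set (MvPolynomial (Fin N) F))) (by
    intro p hp hGp
    exact hcon p hp fun g hg => hGp (Ideal.subset_span hg))
  obtain ⟨M, hM1, g0, hg0⟩ := exists_mat r hr v
  obtain ⟨z, hz, hzG⟩ := hM M
  set y : Fin N → AlgebraicClosure F :=
    fun a => ∑ b, algebraMap K (AlgebraicClosure F) (M a b) * z b with hy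
  obtain ⟨a0, ha0⟩ := mat_inj (L := AlgebraicClosure F) M g0 hg0 z hz
  have ha0' : y a0 ≠ 0 := ha0
  let φ := lin (F := F) y
  have hprime : (RingHom.ker φ).IsPrime := RingHom.ker_isPrime φ
  have h1 := hv (RingHom.ker φ) hprime (by
    rw [Ideal.span_le]
    intro g hg
    obtain ⟨e, he⟩ := hG g hg
    rw [SetLike.mem_coe, RingHom.mem_ker]
    change lin y g = 0
    rw [lin_hom y g e he, hzG g hg, Polynomial.C_0, zero_mul]) (by
    intro i
    rw [RingHom.mem_ker]
    change lin y (lf F (v i)) = 0
    rw [lin_lf]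
    have h2 : ∑ a, algebraMap K (AlgebraicClosure F) (v i a) * y a = 0 := by
      have h3 : ∀ a, algebraMap K (AlgebraicClosure F) (v i a) * y a =
          ∑ b, algebraMap K (AlgebraicClosure F) (v i a * M a b) * z b := by
        intro a
        rw [hy, Finset.mul_sum]
        refine Finset.sum_congr rfl fun b _ => ?_
        rw [map_mul, mul_assoc]
      rw [Finset.sum_congr rfl fun a _ => h3 a, Finset.sum_comm]
      refine Finset.sum_eq_zero fun b _ => ?_
      rw [← Finset.sum_mul, ← map_sum, hM1 i b, map_zero, zero_mul]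
    rw [h2, Polynomial.C_0, zero_mul])
  rw [trdeg_eq_zero_iff] at h1
  -- the image of `X a0` is transcendental
  have h4 : IsAlgebraic F (Ideal.Quotient.mk (RingHom.ker φ) (X a0)) := h1.isAlgebraic _
  have h5 : IsAlgebraic F (Ideal.kerLiftAlg φ (Ideal.Quotient.mk (RingHom.ker φ) (X a0))) :=
    h4.algHom (Ideal.kerLiftAlg φ)
  rw [Ideal.kerLiftAlg_mk] at h5
  have h6 : φ (X a0) = Polynomial.C (y a0) * Polynomial.X := by
    change lin y (X a0) = _
    unfold lin
    rw [aeval_X]
  rw [h6] at h5
  have h7 : IsAlgebraic (AlgebraicClosure F)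
      (Polynomial.C (y a0) * Polynomial.X : Polynomial (AlgebraicClosure F)) :=
    h5.extendScalars (algebraMap F (AlgebraicClosure F)).injective
  have h8 : IsAlgebraic (AlgebraicClosure F) (Polynomial.X : Polynomial (AlgebraicClosure F)) := by
    have h9 : (Polynomial.X : Polynomial (AlgebraicClosure F)) =
        algebraMap (AlgebraicClosure F) (Polynomial (AlgebraicClosure F)) (y a0)⁻¹ *
          (Polynomial.C (y a0) * Polynomial.X) := by
      rw [Polynomial.algebraMap_eq, ← mul_assoc, ← Polynomial.C_mul, inv_mul_cancel₀ ha0',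
        Polynomial.C_1, one_mul]
    rw [h9]
    exact (isAlgebraic_algebraMap _).mul h7
  exact Polynomial.transcendental_X (AlgebraicClosure F) h8

end

/-- job SM-B -/
theorem sb : Pool.Agent.Q35.SM.S_B := by
  classical
  intro K _ _ F _ _ N r hr G hG hM
  obtain ⟨p, hp, hGp, htr⟩ := exists_prime r hr G hG hM
  let A := MvPolynomial (Fin N) F ⧸ p
  let xb : Fin N → A := fun a => Ideal.Quotient.mk p (X a)
  have hadj : Algebra.adjoin F (Set.range xb) = ⊤ := by
    rw [Algebra.adjoin_range_eq_range_aeval, AlgHom.range_eq_top]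
    intro b
    obtain ⟨g, rfl⟩ := Ideal.Quotient.mk_surjective b
    refine ⟨g, ?_⟩
    have : (aeval xb : MvPolynomial (Fin N) F →ₐ[F] A) = Ideal.Quotient.mkₐ F p := by
      apply MvPolynomial.algHom_ext
      intro a
      rw [aeval_X]
      rfl
    rw [this]
    rfl
  have halg : Algebra.IsAlgebraic (Algebra.adjoin F (Set.range xb)) A := by
    constructor
    intro a
    have ha : a ∈ Algebra.adjoin F (Set.range xb) := by
      rw [hadj]
      exact Algebra.mem_top
    exact isAlgebraic_algebraMap (⟨a, ha⟩ : Algebra.adjoin F (Set.range xb))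
  obtain ⟨t, hts, ht⟩ := exists_isTranscendenceBasis_subset (R := F) (A := A) (Set.range xb)
  have hcard := ht.cardinalMk_eq_trdeg
  rw [← hcard] at htr
  have htf : Finite t := (Set.finite_range xb).subset hts
  have _ : Fintype t := Fintype.ofFinite t
  rw [Cardinal.mk_fintype, Nat.cast_le] at htr
  choose a ha using fun u : t => hts u.2
  have ha' : ∀ u : t, xb (a u) = (u : A) := ha
  refine ⟨FractionRing A, inferInstance, inferInstance,
    fun i => algebraMap A (FractionRing A) (xb i), Finset.univ.image a, ?_, ?_, ?_⟩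
  · intro g hg
    have h1 : (aeval (fun i => algebraMap A (FractionRing A) (xb i)) :
        MvPolynomial (Fin N) F →ₐ[F] FractionRing A) =
        (IsScalarTower.toAlgHom F A (FractionRing A)).comp (Ideal.Quotient.mkₐ F p) := by
      apply MvPolynomial.algHom_ext
      intro i
      rw [aeval_X]
      rfl
    rw [h1]
    change algebraMap A (FractionRing A) (Ideal.Quotient.mk p g) = 0
    rw [Ideal.Quotient.eq_zero_iff_mem.2 (hGp g hg), map_zero]
  · have hinj : Injective a := by
      intro u u' h
      have : xb (a u) = xb (a u') := by rw [h]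
      rw [ha', ha'] at this
      exact Subtype.ext this
    rw [Finset.card_image_of_injective _ hinj, Finset.card_univ]
    have htr' : ¬ Fintype.card t ≤ N - r := htr
    omega
  · have hmem : ∀ b : (Finset.univ.image a : Finset (Fin N)), xb b ∈ t := by
      rintro ⟨b, hb⟩
      obtain ⟨u, -, rfl⟩ := Finset.mem_image.1 hb
      change xb (a u) ∈ t
      rw [ha']
      exact u.2
    have h1 : AlgebraicIndependent F (fun b : (Finset.univ.image a : Finset (Fin N)) => xb b) := by
      apply ht.1.comp (fun b : (Finset.univ.image a : Finset (Fin N)) => (⟨xb b, hmem b⟩ : t))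
      rintro ⟨b, hb⟩ ⟨b', hb'⟩ h
      obtain ⟨u, -, rfl⟩ := Finset.mem_image.1 hb
      obtain ⟨u', -, rfl⟩ := Finset.mem_image.1 hb'
      have h2 : xb (a u) = xb (a u') := congrArg Subtype.val h
      rw [ha', ha'] at h2
      have h3 : u = u' := Subtype.ext h2
      subst h3
      rfl
    exact h1.map' (f := IsScalarTower.toAlgHom F A (FractionRing A))
      (IsFractionRing.injective A (FractionRing A))

end Pool.Agent.Q298.SM
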