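import Pool.Agent.Q298.SM.Bas

/-!
Project SM, job T, part 1: minors; multihomogeneous polynomials; the minors of the base case
-/

set_option autoImplicit false

namespace Pool.Agent.Q298.SM

open Finset Function MvPolynomial
open Pool.Agent.Q35.SM

theorem exists_minor {F : Type} [Field F] {m N : Type} [Fintype m] [DecidableEq m] [Fintype N]
    (A : Matrix m N F) (h : LinearIndependent F A.row) :
    ∃ f : m → N, (A.submatrix id f).det ≠ 0 := by
  have hr : A.rank = Fintype.card m := h.rank_matrix
  rw [Matrix.rank_eq_finrank_span_cols] at hr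
  obtain ⟨g, hg1, -, hg2⟩ := Submodule.exists_fun_fin_finrank_span_eq F (Set.range A.col)
  let e : m ≃ Fin (Module.finrank F (Submodule.span F (Set.range A.col))) :=
    Fintype.equivFinOfCardEq hr.symm
  choose f hf using fun i => hg1 (e i)
  refine ⟨f, ?_⟩
  have h2 : LinearIndependent F (A.submatrix id f).col := by
    have h3 : (A.submatrix id f).col = g ∘ e := by
      funext i
      exact hf i
    rw [h3]
    exact hg2.comp e e.injective
  rw [Matrix.linearIndependent_cols_iff_isUnit, Matrix.isUnit_iff_isUnit_det,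
    isUnit_iff_ne_zero] at h2
  exact h2

theorem linInd_of_minor {F : Type} [Field F] {m N : Type} [Fintype m] [DecidableEq m] [Fintype N]
    (A : Matrix m N F) (f : m → N) (h : (A.submatrix id f).det ≠ 0) :
    LinearIndependent F A.row := by
  have h1 : LinearIndependent F (A.submatrix id f).row :=
    Matrix.linearIndependent_rows_of_det_ne_zero h
  have h2 : (A.submatrix id f).row = (LinearMap.funLeft F F f) ∘ A.row := by
    funext i j
    rfl
  rw [h2] at h1
  exact LinearIndependent.of_comp _ h1

section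

variable {K : Type} [Field K] {ι : Type} [Fintype ι] [DecidableEq ι] {n : ι → ℕ}

/-- the weight of the multidegree -/
def wt (n : ι → ℕ) (v : Var n) : ι → ℕ := Pi.single v.1 1

theorem weight_wt (m : Var n →₀ ℕ) : Finsupp.weight (wt n) m = fun i => ∑ a, m ⟨i, a⟩ := by
  funext i
  rw [Finsupp.weight_apply, Finsupp.sum_fintype _ _ (by simp), Finset.sum_apply,
    Fintype.sum_sigma, Finset.sum_eq_single i]
  · refine Finset.sum_congr rfl fun a _ => ?_
    simp [wt]
  · intro j _ hj
    refine Finset.sum_eq_zero fun a _ => ?_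
    simp [wt, Ne.symm hj]
  · simp

theorem mh_iff (g : Pol K n) : MH g ↔ ∃ δ : ι → ℕ, IsWeightedHomogeneous (wt n) g δ := by
  unfold MH IsWeightedHomogeneous
  constructor
  · rintro ⟨δ, h⟩
    refine ⟨δ, fun m hm => ?_⟩
    rw [weight_wt]
    funext i
    exact h m (by rwa [mem_support_iff]) i
  · rintro ⟨δ, h⟩
    refine ⟨δ, fun m hm i => ?_⟩
    have := h (mem_support_iff.1 hm)
    rw [weight_wt] at this
    exact congrFun this i

/-- a multihomogeneous polynomial of degree `0` in the block `i` has no variables in it -/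
theorem vars_of_wh (g : Pol K n) (δ : ι → ℕ) (h : IsWeightedHomogeneous (wt n) g δ) (v : Var n)
    (hv : v ∈ g.vars) : δ v.1 ≠ 0 := by
  obtain ⟨m, hm, hmv⟩ := (mem_vars_iff_mem_support v).1 hv
  have h1 := h (mem_support_iff.1 hm)
  rw [weight_wt] at h1
  have h2 := congrFun h1 v.1
  intro h0
  rw [h0] at h2
  have h3 := (Finset.sum_eq_zero_iff.1 h2) v.2 (Finset.mem_univ _)
  rw [Finsupp.mem_support_iff] at hmv
  exact hmv h3

/-- the generic point -/
noncomputable def gen : Vs (Pol K n) n := fun i a => X ⟨i, a⟩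

theorem pv_gen (A : Type) [CommRing A] [Algebra K A] (x : Vs A n) (c : Cof K n) (j : ι)
    (a : Fin (n j + 1)) :
    pv A (ev (Pol K n) c (update gen j (Pi.single a 1))) x =
      ev A c (update x j (Pi.single a 1)) := by
  unfold pv
  have := ev_map (aeval (fun v : Var n => x v.1 v.2) : MvPolynomial (Var n) K →ₐ[K] A) c
    (update gen j (Pi.single a 1))
  rw [← this, upd_single]
  congr 2
  funext l b
  simp [gen]

/-- the linear forms are homogeneous of degree `1` in each block `≠ j` -/
theorem ev_gen_wh (c : Cof K n) (j : ι) (a : Fin (n j + 1)) :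
    IsWeightedHomogeneous (wt n) (ev (Pol K n) c (update gen j (Pi.single a 1)))
      (∑ l ∈ univ.erase j, Pi.single l 1) := by
  unfold ev
  refine IsWeightedHomogeneous.sum _ _ _ fun b _ => ?_
  change IsWeightedHomogeneous (wt n) (C (c b) * _) _
  apply IsWeightedHomogeneous.C_mul
  rw [← Finset.mul_prod_erase _ _ (Finset.mem_univ j)]
  have h1 : IsWeightedHomogeneous (wt n)
      (∏ x ∈ univ.erase j, update gen j (Pi.single a 1) x (b x) : Pol K n)
      (∑ l ∈ univ.erase j, Pi.single l 1) := by
    apply IsWeightedHomogeneous.prod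
    intro l hl
    rw [update_of_ne (Finset.ne_of_mem_erase hl)]
    exact isWeightedHomogeneous_X K (wt n) (⟨l, b l⟩ : Var n)
  rw [update_self]
  by_cases hb : b j = a
  · rw [hb, Pi.single_eq_same, one_mul]
    exact h1
  · rw [Pi.single_eq_of_ne hb, zero_mul]
    exact isWeightedHomogeneous_zero _ _ _

/-- the determinant of a matrix of polynomials of the same multidegree -/
theorem det_wh {k : ℕ} (M : Matrix (Fin k) (Fin k) (Pol K n)) (δ : ι → ℕ)
    (h : ∀ i j, IsWeightedHomogeneous (wt n) (M i j) δ) :
    IsWeightedHomogeneous (wt n) M.det (∑ _i : Fin k, δ) := by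
  rw [Matrix.det_apply]
  refine IsWeightedHomogeneous.sum _ _ _ fun σ _ => ?_
  have h1 : IsWeightedHomogeneous (wt n) (∏ i, M (σ i) i) (∑ _i : Fin k, δ) :=
    IsWeightedHomogeneous.prod _ _ _ fun i _ => h _ _
  rcases Int.units_eq_one_or (Equiv.Perm.sign σ) with hs | hs
  · rw [hs, one_smul]
    exact h1
  · rw [hs]
    simpa using h1.neg

/-- the base case -/
theorem base_ex (k : ℕ) (c : Fin k → Cof K n) (j : ι) : ∃ G : Finset (Pol K n),
    (∀ g ∈ G, MH g) ∧ (∀ g ∈ G, ∀ v ∈ g.vars, v.1 ∈ univ.erase j) ∧
    ∀ (F : Type) [Field F] [Algebra K F] (x : Vs F n),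
    Opn F G x ↔
      LinearIndependent F fun (t : Fin k) (a : Fin (n j + 1)) =>
        ev F (c t) (update x j (Pi.single a 1)) := by
  classical
  let L : Matrix (Fin k) (Fin (n j + 1)) (Pol K n) :=
    fun t a => ev (Pol K n) (c t) (update gen j (Pi.single a 1))
  have hwh : ∀ f : Fin k → Fin (n j + 1), IsWeightedHomogeneous (wt n) (L.submatrix id f).det
      (∑ _i : Fin k, ∑ l ∈ univ.erase j, Pi.single l 1) := by
    intro f
    apply det_wh
    intro t b
    exact ev_gen_wh (c t) j (f b)
  refine ⟨univ.image fun f : Fin k → Fin (n j + 1) => (L.submatrix id f).det, ?_, ?_, ?_⟩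
  · intro g hg
    obtain ⟨f, -, rfl⟩ := Finset.mem_image.1 hg
    exact (mh_iff _).2 ⟨_, hwh f⟩
  · intro g hg v hv
    obtain ⟨f, -, rfl⟩ := Finset.mem_image.1 hg
    have := vars_of_wh _ _ (hwh f) v hv
    rw [Finset.mem_erase]
    refine ⟨?_, Finset.mem_univ _⟩
    rintro rfl
    apply this
    rw [Finset.sum_apply]
    refine Finset.sum_eq_zero fun i _ => ?_
    rw [Finset.sum_apply]
    refine Finset.sum_eq_zero fun l hl => ?_
    rw [Pi.single_eq_of_ne (Finset.ne_of_mem_erase hl).symm]
  · intro F _ _ x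
    let A : Matrix (Fin k) (Fin (n j + 1)) F := fun t a => ev F (c t) (update x j (Pi.single a 1))
    have hdet : ∀ f : Fin k → Fin (n j + 1),
        pv F (L.submatrix id f).det x = (A.submatrix id f).det := by
      intro f
      have h1 : pv F (L.submatrix id f).det x =
          (aeval (fun v : Var n => x v.1 v.2) : MvPolynomial (Var n) K →ₐ[K] F)
            (L.submatrix id f).det := rfl
      rw [h1, AlgHom.map_det]
      congr 1
      ext t b
      exact pv_gen F x (c t) j (f b)
    have hA : (LinearIndependent F fun (t : Fin k) (a : Fin (n j + 1)) =>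
        ev F (c t) (update x j (Pi.single a 1))) ↔ LinearIndependent F A.row := Iff.rfl
    rw [hA]
    constructor
    · rintro ⟨g, hg, hne⟩
      obtain ⟨f, -, rfl⟩ := Finset.mem_image.1 hg
      rw [hdet] at hne
      exact linInd_of_minor A f hne
    · intro h
      obtain ⟨f, hf⟩ := exists_minor A h
      exact ⟨_, Finset.mem_image.2 ⟨f, Finset.mem_univ _, rfl⟩, by rw [hdet]; exact hf⟩

end

end Pool.Agent.Q298.SM
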