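import Mathlib
import Pool.Agent.Q298.SM.T1

/-!
Project SM, job B, part 1: transcendence degrees of quotients; choice of linear forms
-/

set_option autoImplicit false

namespace Pool.Agent.Q298.SM

open MvPolynomial Algebra Function

theorem trdeg_step {F A B : Type} [Field F] [CommRing A] [IsDomain A] [CommRing B] [IsDomain B]
    [Algebra F A] [Algebra F B] (π : A →ₐ[F] B) (hπ : Surjective π) (h : A) (hh : h ≠ 0)
    (hπh : π h = 0) : trdeg F B + 1 ≤ trdeg F A := by
  obtain ⟨s, hs⟩ := exists_isTranscendenceBasis F B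
  choose y hy using fun u : s => hπ (u : B)
  have hcomp : π ∘ y = (fun u : s => (u : B)) := funext hy
  have hy' : AlgebraicIndependent F y := by
    apply AlgebraicIndependent.of_comp π
    rw [hcomp]
    exact hs.1
  have h1 : AlgebraicIndependent F (fun o : Option s => o.elim h y) := by
    rw [hy'.option_iff_transcendental h]
    intro halg
    obtain ⟨P, hP0, hP⟩ := halg.exists_nonzero_coeff_and_aeval_eq_zero
      (mem_nonZeroDivisors_of_ne_zero hh)
    apply hP0
    -- the constant coefficient
    obtain ⟨p, hp⟩ : ∃ p : MvPolynomial s F, aeval y p = (P.coeff 0 : A) := by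
      have h2 : ∀ a ∈ Algebra.adjoin F (Set.range y), ∃ p : MvPolynomial s F, aeval y p = a := by
        intro a ha
        rw [Algebra.adjoin_range_eq_range_aeval] at ha
        exact ha
      exact h2 _ (P.coeff 0).2
    have h3 : π (P.coeff 0 : A) = 0 := by
      rw [← Polynomial.divX_mul_X_add P] at hP
      rw [map_add, map_mul, Polynomial.aeval_X, Polynomial.aeval_C] at hP
      have h4 := congrArg π hP
      rw [map_add, map_mul, hπh, mul_zero, zero_add, map_zero] at h4
      exact h4
    have h5 : aeval (fun u : s => (u : B)) p = 0 := by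
      rw [← hcomp, ← h3, ← hp]
      have h6 : (aeval (π ∘ y) : MvPolynomial s F →ₐ[F] B) = π.comp (aeval y) := by
        apply MvPolynomial.algHom_ext
        intro u
        simp
      rw [h6]
      rfl
    have h7 : p = 0 := by
      have h8 : Function.Injective (aeval (fun u : s => (u : B)) : MvPolynomial s F →ₐ[F] B) :=
        hs.1
      exact h8 (by rw [h5, map_zero])
    rw [h7, map_zero] at hp
    exact Subtype.ext hp.symm
  have h2 := h1.cardinalMk_le_trdeg
  rw [Cardinal.mk_option, hs.cardinalMk_eq_trdeg] at h2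
  exact h2

section

variable {K F : Type} [Field K] [Field F] [Algebra K F] {N : ℕ}

/-- the linear form with coefficients `v` -/
noncomputable def lf (F : Type) [Field F] [Algebra K F] (v : Fin N → K) :
    MvPolynomial (Fin N) F := ∑ a, v a • X a

theorem lf_add (v w : Fin N → K) : lf F (v + w) = lf F v + lf F w := by
  unfold lf
  rw [← Finset.sum_add_distrib]
  refine Finset.sum_congr rfl fun a _ => ?_
  rw [Pi.add_apply, add_smul]

theorem lf_smul (c : K) (v : Fin N → K) : lf F (c • v) = c • lf F v := by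
  unfold lf
  rw [Finset.smul_sum]
  refine Finset.sum_congr rfl fun a _ => ?_
  rw [Pi.smul_apply, smul_eq_mul, mul_smul]

theorem lf_single (a : Fin N) : lf F (Pi.single a (1 : K)) = X a := by
  unfold lf
  rw [Finset.sum_eq_single a]
  · simp
  · intro b _ hb
    simp [hb]
  · simp

/-- the linear forms over `K` in the ideal -/
def Wp (K : Type) [Field K] [Algebra K F] (p : Ideal (MvPolynomial (Fin N) F)) :
    Submodule K (Fin N → K) where
  carrier := {v | lf F v ∈ p}
  add_mem' := by
    intro v w hv hw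
    change lf F (v + w) ∈ p
    rw [lf_add]
    exact p.add_mem hv hw
  zero_mem' := by
    change lf F (0 : Fin N → K) ∈ p
    have : lf F (0 : Fin N → K) = 0 := by
      have := lf_smul (F := F) (0 : K) (0 : Fin N → K)
      rw [zero_smul, zero_smul] at this
      exact this
    rw [this]
    exact p.zero_mem
  smul_mem' := by
    intro c v hv
    change lf F (c • v) ∈ p
    rw [lf_smul, ← algebraMap_smul (MvPolynomial (Fin N) F) c, smul_eq_mul]
    exact p.mul_mem_left _ hv

theorem mem_Wp (p : Ideal (MvPolynomial (Fin N) F)) (v : Fin N → K) :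
    v ∈ Wp K p ↔ lf F v ∈ p := Iff.rfl

theorem trdeg_zero_of_vars (p : Ideal (MvPolynomial (Fin N) F)) [p.IsPrime]
    (h : ∀ a, (X a : MvPolynomial (Fin N) F) ∈ p) : trdeg F (MvPolynomial (Fin N) F ⧸ p) = 0 := by
  have h1 : Surjective (algebraMap F (MvPolynomial (Fin N) F ⧸ p)) := by
    intro b
    obtain ⟨g, rfl⟩ := Ideal.Quotient.mk_surjective b
    induction g using MvPolynomial.induction_on with
    | C c => exact ⟨c, rfl⟩
    | add g1 g2 h1 h2 =>
      obtain ⟨c1, h1⟩ := h1
      obtain ⟨c2, h2⟩ := h2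
      exact ⟨c1 + c2, by rw [map_add, map_add, h1, h2]⟩
    | mul_X g a _ =>
      refine ⟨0, ?_⟩
      rw [map_zero, map_mul, (Ideal.Quotient.eq_zero_iff_mem.2 (h a)), mul_zero]
  have h2 : Algebra.IsIntegral F (MvPolynomial (Fin N) F ⧸ p) :=
    Algebra.isIntegral_of_surjective h1
  exact trdeg_eq_zero

theorem trdeg_lt (p q : Ideal (MvPolynomial (Fin N) F)) [p.IsPrime] [q.IsPrime] (h : p ≤ q)
    (hne : p ≠ q) : trdeg F (MvPolynomial (Fin N) F ⧸ q) + 1 ≤
      trdeg F (MvPolynomial (Fin N) F ⧸ p) := by
  obtain ⟨g, hgq, hgp⟩ := SetLike.exists_of_lt (lt_of_le_of_ne h hne)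
  apply trdeg_step (Ideal.Quotient.factorₐ F h) (Ideal.Quotient.factor_surjective h)
    (Ideal.Quotient.mk p g)
  · intro h0
    exact hgp (Ideal.Quotient.eq_zero_iff_mem.1 h0)
  · exact Ideal.Quotient.eq_zero_iff_mem.2 hgq

theorem forms [Infinite K] (m : ℕ) : ∀ J : Ideal (MvPolynomial (Fin N) F),
    (∀ p : Ideal (MvPolynomial (Fin N) F), p.IsPrime → J ≤ p →
      trdeg F (MvPolynomial (Fin N) F ⧸ p) ≤ m) →
    ∃ v : Fin m → (Fin N → K), ∀ q : Ideal (MvPolynomial (Fin N) F), q.IsPrime → J ≤ q →
      (∀ i, lf F (v i) ∈ q) → trdeg F (MvPolynomial (Fin N) F ⧸ q) = 0 := by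
  induction m with
  | zero =>
    intro J hJ
    refine ⟨Fin.elim0, fun q hq hJq _ => ?_⟩
    have := hJ q hq hJq
    rw [Nat.cast_zero] at this
    exact le_antisymm this bot_le
  | succ m ih =>
    intro J hJ
    have hfin := Ideal.finite_minimalPrimes_of_isNoetherianRing (MvPolynomial (Fin N) F) J
    -- a linear form not in the relevant minimal primes
    obtain ⟨y, hy⟩ : ∃ y : Fin N → K, ∀ p ∈ J.minimalPrimes, Wp K p ≠ ⊤ → y ∉ Wp K p := by
      by_contra hcon
      push Not at hcon
      have hf2 : (Wp K '' {p | p ∈ J.minimalPrimes ∧ Wp K p ≠ ⊤}).Finite :=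
        (hfin.subset fun p hp => hp.1).image _
      have h1 := Subspace.biUnion_ne_univ_of_top_notMem (k := K) (E := Fin N → K)
        (s := hf2.toFinset) (by
          intro hmem
          rw [Set.Finite.mem_toFinset] at hmem
          obtain ⟨p, hp, hp'⟩ := hmem
          exact hp.2 hp')
      apply h1
      rw [Set.eq_univ_iff_forall]
      intro y
      obtain ⟨p, hp, hp', hy⟩ := hcon y
      rw [Set.mem_iUnion₂]
      exact ⟨Wp K p, (Set.Finite.mem_toFinset _).2 ⟨p, ⟨hp, hp'⟩, rfl⟩, hy⟩
    obtain ⟨v, hv⟩ := ih (J ⊔ Ideal.span {lf F y}) (by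
      intro q hq hJq
      have hJq1 : J ≤ q := le_sup_left.trans hJq
      have hyq : lf F y ∈ q := hJq (Ideal.mem_sup_right (Ideal.subset_span rfl))
      obtain ⟨p, hp, hpq⟩ := Ideal.exists_minimalPrimes_le hJq1
      have hpp : p.IsPrime := hp.1.1
      by_cases htop : Wp K p = ⊤
      · have h2 : ∀ a, (X a : MvPolynomial (Fin N) F) ∈ q := by
          intro a
          apply hpq
          rw [← lf_single (K := K) (F := F) a, ← mem_Wp, htop]
          exact Submodule.mem_top
        rw [trdeg_zero_of_vars q h2]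
        exact bot_le
      · have h3 := hy p hp htop
        rw [mem_Wp] at h3
        have h4 := trdeg_lt p q hpq (by
          rintro rfl
          exact h3 hyq)
        have h5 := h4.trans (hJ p hpp hp.1.2)
        rw [Nat.cast_add, Nat.cast_one] at h5
        exact Cardinal.add_one_le_add_one_iff.1 h5)
    refine ⟨Fin.cons y v, fun q hq hJq hvq => ?_⟩
    apply hv q hq
    · refine sup_le hJq ?_
      rw [Ideal.span_singleton_le_iff_mem]
      exact hvq 0
    · intro i
      exact hvq i.succ

end

end Pool.Agent.Q298.SM
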