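import Pool.Agent.Q298.SM.Bas

/-!
Project SM, job D: going down the tower
-/

set_option autoImplicit false

namespace Pool.Agent.Q298.SM

open Finset Function MvPolynomial
open Pool.Agent.Q35.SM

section

variable {K : Type} [Field K] {ι : Type} [Fintype ι] [DecidableEq ι] {n : ι → ℕ}

/-- the polynomial in the coordinates of the `i`-th vector -/
noncomputable def sb1 (F : Type) [Field F] [Algebra K F] (x : Vs F n) (i : ι) (g : Pol K n) :
    MvPolynomial (Fin (n i + 1)) F :=
  pv (MvPolynomial (Fin (n i + 1)) F) g (update (fun l a => C (x l a)) i (fun a => X a))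

theorem sb1_eval (F : Type) [Field F] [Algebra K F] (x : Vs F n) (i : ι) (g : Pol K n)
    (A : Type) [CommRing A] [Algebra F A] [Algebra K A] [IsScalarTower K F A]
    (w : Fin (n i + 1) → A) :
    aeval w (sb1 F x i g) = pv A g (update (fun l a => algebraMap F A (x l a)) i w) := by
  have h := pv_map ((aeval w : MvPolynomial (Fin (n i + 1)) F →ₐ[F] A).restrictScalars K) g
    (update (fun l a => C (x l a)) i (fun a => X a))
  rw [upd_map] at h
  simp only [AlgHom.restrictScalars_apply, aeval_C, aeval_X] at h
  exact h.symm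

theorem sb1_hom (F : Type) [Field F] [Algebra K F] (x : Vs F n) (i : ι) (g : Pol K n)
    (hg : MH g) : ∃ e, (sb1 F x i g).IsHomogeneous e := by
  obtain ⟨δ, hδ⟩ := hg
  refine ⟨δ i, ?_⟩
  unfold sb1 pv
  rw [aeval_def, eval₂_eq']
  apply IsHomogeneous.sum
  intro m hm
  have h1 := hδ m hm i
  have h2 : (∏ v : Var n, (update (fun l a => C (x l a)) i (fun a => X a) :
      Vs (MvPolynomial (Fin (n i + 1)) F) n) v.1 v.2 ^ m v).IsHomogeneous
      (∑ v : Var n, (if v.1 = i then 1 else 0) * m v) := by
    apply IsHomogeneous.prod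
    rintro ⟨l, a⟩ -
    apply IsHomogeneous.pow
    by_cases hl : l = i
    · subst hl
      rw [update_self, if_pos rfl]
      exact isHomogeneous_X _ _
    · rw [update_of_ne hl, if_neg hl]
      exact isHomogeneous_C _ _
  have h3 : (∑ v : Var n, (if v.1 = i then 1 else 0) * m v) = δ i := by
    rw [← h1, Fintype.sum_sigma, Finset.sum_eq_single i]
    · simp
    · intro l _ hl
      simp [hl]
    · simp
  rw [h3] at h2
  have h4 : (algebraMap K (MvPolynomial (Fin (n i + 1)) F) (coeff m g)).IsHomogeneous 0 := by
    rw [IsScalarTower.algebraMap_apply K F (MvPolynomial (Fin (n i + 1)) F)]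
    exact isHomogeneous_C _ _
  simpa using h4.mul h2

/-- the new algebraically independent family -/
theorem new_ind (F : Type) [Field F] [Algebra K F] (x : Vs F n) (i : ι)
    (F' : Type) [Field F'] [Algebra F F'] [Algebra K F'] [IsScalarTower K F F']
    (y : Fin (n i + 1) → F') (B : Finset (Var n)) (B' : Finset (Fin (n i + 1)))
    (hB : ∀ v ∈ B, v.1 ≠ i) (h1 : AlgebraicIndependent K fun v : B => x v.1.1 v.1.2)
    (h2 : AlgebraicIndependent F fun b : B' => y b) :
    AlgebraicIndependent K fun v : (B ∪ B'.image fun a => (⟨i, a⟩ : Var n) : Finset (Var n)) =>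
      (update (fun l a => algebraMap F F' (x l a)) i y : Vs F' n) v.1.1 v.1.2 := by
  have h3 := h1.sumElim_comp h2
  let e : B' ⊕ B → (B ∪ B'.image fun a => (⟨i, a⟩ : Var n) : Finset (Var n)) :=
    Sum.elim (fun a => ⟨⟨i, a.1⟩, Finset.mem_union_right _ (Finset.mem_image_of_mem _ a.2)⟩)
      (fun v => ⟨v.1, Finset.mem_union_left _ v.2⟩)
  have he : Function.Bijective e := by
    constructor
    · rintro (a | v) (a' | v') h
      · have h4 : (⟨i, a.1⟩ : Var n) = ⟨i, a'.1⟩ := congrArg Subtype.val h
        have h5 : a.1 = a'.1 := by simpa using h4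
        rw [Subtype.ext h5]
      · have h4 : (⟨i, a.1⟩ : Var n) = v'.1 := congrArg Subtype.val h
        exact absurd (congrArg Sigma.fst h4).symm (hB v'.1 v'.2)
      · have h4 : v.1 = (⟨i, a'.1⟩ : Var n) := congrArg Subtype.val h
        exact absurd (congrArg Sigma.fst h4) (hB v.1 v.2)
      · have h4 : (e (Sum.inr v)).1 = (e (Sum.inr v')).1 := by rw [h]
        rw [Subtype.ext (show v.1 = v'.1 from h4)]
    · rintro ⟨v, hv⟩
      rcases Finset.mem_union.1 hv with h | h
      · exact ⟨Sum.inr ⟨v, h⟩, rfl⟩
      · obtain ⟨a, ha, rfl⟩ := Finset.mem_image.1 h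
        exact ⟨Sum.inl ⟨a, ha⟩, rfl⟩
  refine (algebraicIndependent_equiv' (Equiv.ofBijective e he) ?_).1 h3
  funext q
  rcases q with a | v
  · change (update (fun l a => algebraMap F F' (x l a)) i y : Vs F' n) i a.1 = y a.1
    rw [update_self]
  · change (update (fun l a => algebraMap F F' (x l a)) i y : Vs F' n) v.1.1 v.1.2 =
      algebraMap F F' (x v.1.1 v.1.2)
    rw [update_of_ne (hB v.1 v.2)]

end

/-- job SM-D -/
theorem sd (hB : Pool.Agent.Q35.SM.S_B) : Pool.Agent.Q35.SM.S_D := by
  classical
  intro K _ _ ι _ _ n k r c G hG hs hr hrn h0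
  have key : ∀ m, m + 1 ≤ Fintype.card ι → ∃ (I : Finset ι) (F : Type) (_ : Field F)
      (_ : Algebra K F) (x : Vs F n) (B : Finset (Var n)), I.card = m ∧ ¬ Opn F (G I) x ∧
      (∀ v ∈ B, v.1 ∈ I) ∧ (∀ l ∈ I, n l + 2 ≤ (B.filter fun v => v.1 = l).card + r) ∧
      AlgebraicIndependent K fun v : B => x v.1.1 v.1.2 := by
    intro m
    induction m with
    | zero =>
      intro _
      refine ⟨∅, K, inferInstance, inferInstance, fun _ _ => 0, ∅, rfl, h0 _, ?_, ?_, ?_⟩
      · simp
      · simp
      · have : IsEmpty ((∅ : Finset (Var n)) : Type) := by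
          constructor
          rintro ⟨v, hv⟩
          exact absurd hv (Finset.notMem_empty v)
        exact algebraicIndependent_empty_type
    | succ m ih =>
      intro hm
      obtain ⟨I, F, _, _, x, B, hI, hno, hBI, hBc, hind⟩ := ih (by omega)
      rw [hG.step I (by omega) F x] at hno
      push Not at hno
      obtain ⟨i, hiI, hcut⟩ := hno
      have hcut' : ∀ M : Matrix (Fin (n i + 1)) (Fin r) K, ∃ z : Fin r → AlgebraicClosure F,
          z ≠ 0 ∧ ¬ Opn (AlgebraicClosure F) (G (insert i I))
            (update (fun l a => algebraMap F (AlgebraicClosure F) (x l a)) i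
              (fun a => ∑ b, algebraMap K (AlgebraicClosure F) (M a b) * z b)) := by
        intro M
        by_contra hcon
        push Not at hcon
        exact hcut ⟨M, hcon⟩
      obtain ⟨F', _, _, y, B', hy, hB', hind'⟩ := hB K F (n i + 1) r (hrn i)
        ((G (insert i I)).image (sb1 F x i)) (by
          intro g hg
          obtain ⟨g', hg', rfl⟩ := Finset.mem_image.1 hg
          exact sb1_hom F x i g' (hG.hom _ g' hg')) (by
          intro M
          obtain ⟨z, hz, hop⟩ := hcut' M
          refine ⟨z, hz, ?_⟩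
          intro g hg
          obtain ⟨g', hg', rfl⟩ := Finset.mem_image.1 hg
          rw [sb1_eval]
          by_contra hne
          exact hop ⟨g', hg', hne⟩)
      let _ : Algebra K F' := ((algebraMap F F').comp (algebraMap K F)).toAlgebra
      have _ : IsScalarTower K F F' := IsScalarTower.of_algebraMap_eq fun _ => rfl
      refine ⟨insert i I, F', inferInstance, inferInstance,
        update (fun l a => algebraMap F F' (x l a)) i y,
        B ∪ B'.image fun a => (⟨i, a⟩ : Var n), ?_, ?_, ?_, ?_, ?_⟩
      · rw [Finset.card_insert_of_notMem hiI, hI]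
      · rintro ⟨g, hg, hne⟩
        apply hne
        rw [← sb1_eval F x i g F' y]
        exact hy _ (Finset.mem_image_of_mem _ hg)
      · intro v hv
        rcases Finset.mem_union.1 hv with h | h
        · exact Finset.mem_insert_of_mem (hBI v h)
        · obtain ⟨a, ha, rfl⟩ := Finset.mem_image.1 h
          exact Finset.mem_insert_self _ _
      · intro l hl
        rcases Finset.mem_insert.1 hl with rfl | hl
        · refine le_trans (b := B'.card + r) (by omega) (Nat.add_le_add_right ?_ r)
          rw [← Finset.card_image_of_injective B' (f := fun a => (⟨l, a⟩ : Var n))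
            (fun a b hab => by simpa using hab)]
          apply Finset.card_le_card
          intro v hv
          refine Finset.mem_filter.2 ⟨Finset.mem_union_right _ hv, ?_⟩
          obtain ⟨a, ha, rfl⟩ := Finset.mem_image.1 hv
          rfl
        · have h1 : B.filter (fun v => v.1 = l) ⊆
              (B ∪ B'.image fun a => (⟨i, a⟩ : Var n)).filter (fun v => v.1 = l) := by
            intro v hv
            exact Finset.mem_filter.2 ⟨Finset.mem_union_left _ (Finset.mem_filter.1 hv).1,
              (Finset.mem_filter.1 hv).2⟩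
          have h2 := Finset.card_le_card h1
          have h3 := hBc l hl
          omega
      · apply new_ind F x i F' y B B' _ hind hind'
        intro v hv h
        exact hiI (h ▸ hBI v hv)
  obtain ⟨I, F, _, _, x, B, hI, hno, hBI, hBc, hind⟩ := key (Fintype.card ι - 1) (by omega)
  -- `I` is the complement of a point
  obtain ⟨j, hj⟩ : ∃ j, I = univ.erase j := by
    have h1 : Iᶜ.card = 1 := by
      rw [Finset.card_compl, hI]
      omega
    obtain ⟨j, hj⟩ := Finset.card_eq_one.1 h1
    refine ⟨j, ?_⟩
    ext l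
    rw [Finset.mem_erase]
    have h2 : l ∈ Iᶜ ↔ l = j := by rw [hj, Finset.mem_singleton]
    rw [Finset.mem_compl] at h2
    constructor
    · intro hl
      exact ⟨fun h => h2.2 h hl, Finset.mem_univ _⟩
    · rintro ⟨hl, -⟩
      by_contra hlI
      exact hl (h2.1 hlI)
  subst hj
  rw [hG.base j F x, Fintype.not_linearIndependent_iff] at hno
  obtain ⟨μ, hμ1, t, ht⟩ := hno
  refine ⟨j, F, inferInstance, inferInstance, x, μ, B, ?_, ?_, ?_, ?_, hind⟩
  · intro h
    exact ht (congrFun h t)
  · intro y
    have h4 : ∀ t, μ t * ev F (c t) (update x j y) =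
        ∑ a, y a * (μ t * ev F (c t) (update x j (Pi.single a 1))) := by
      intro t
      rw [ev_lin, Finset.mul_sum]
      refine Finset.sum_congr rfl fun a _ => ?_
      ring
    rw [Finset.sum_congr rfl fun t _ => h4 t, Finset.sum_comm]
    refine Finset.sum_eq_zero fun a _ => ?_
    rw [← Finset.mul_sum]
    have h5 := congrFun hμ1 a
    rw [Finset.sum_apply] at h5
    have h6 : ∑ t, μ t * ev F (c t) (update x j (Pi.single a 1)) = 0 := by
      rw [← Pi.zero_apply (M := fun _ => F) a, ← h5]
      refine Finset.sum_congr rfl fun t _ => ?_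
      rw [Pi.smul_apply, smul_eq_mul]
    rw [h6, mul_zero]
  · intro v hv
    exact Finset.ne_of_mem_erase (hBI v hv)
  · intro l hl
    exact hBc l (Finset.mem_erase.2 ⟨hl, Finset.mem_univ _⟩)

end Pool.Agent.Q298.SM
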