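import Mathlib

/-!
Project SM, job E, part 1: derivations with given values on an algebraically independent family
-/

set_option autoImplicit false

namespace Pool.Agent.Q298.SM

open MvPolynomial TensorProduct

theorem exists_der (K : Type) [Field K] [CharZero K] (F : Type) [Field F] [Algebra K F] {B : Type}
    (x : B → F) (hx : AlgebraicIndependent K x) (w : B → F) :
    ∃ D : Derivation K F F, ∀ b, D (x b) = w b := by
  classical
  obtain ⟨t, hst, ht⟩ := exists_isTranscendenceBasis_superset
    (s := Set.range x) (R := K) (hx.to_subtype_range)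
  let φ : MvPolynomial t K →ₐ[K] F := aeval (fun y : t => (y : F))
  have hφ : Function.Injective φ := ht.1
  let _ : Algebra (MvPolynomial t K) F := φ.toRingHom.toAlgebra
  have hmap : ∀ s : MvPolynomial t K, algebraMap (MvPolynomial t K) F s = φ s := fun s => rfl
  have _ : IsScalarTower K (MvPolynomial t K) F :=
    IsScalarTower.of_algebraMap_eq fun r => (φ.commutes r).symm
  have _ : FaithfulSMul (MvPolynomial t K) F := (faithfulSMul_iff_algebraMap_injective _ _).2 hφ
  have halg : Algebra.IsAlgebraic (MvPolynomial t K) F := by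
    have h1 := ht.isAlgebraic
    refine Algebra.IsAlgebraic.of_ringHom_of_comp_eq (S := Algebra.adjoin K (Set.range
      (fun y : t => (y : F)))) (B := F) ht.1.aevalEquiv.toRingEquiv (RingHom.id F)
      ht.1.aevalEquiv.surjective Function.injective_id ?_
    ext s
    · simp [hmap, φ]
    · simp [hmap, φ]
  let _ : Algebra (FractionRing (MvPolynomial t K)) F :=
    FractionRing.liftAlgebra (MvPolynomial t K) F
  have _ : IsScalarTower (MvPolynomial t K) (FractionRing (MvPolynomial t K)) F :=
    FractionRing.isScalarTower_liftAlgebra (MvPolynomial t K) F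
  have halg2 : Algebra.IsAlgebraic (FractionRing (MvPolynomial t K)) F :=
    Algebra.IsAlgebraic.extendScalars
      (IsFractionRing.injective (MvPolynomial t K) (FractionRing (MvPolynomial t K)))
  have _ : CharZero (FractionRing (MvPolynomial t K)) :=
    charZero_of_injective_algebraMap (IsFractionRing.injective (MvPolynomial t K)
      (FractionRing (MvPolynomial t K)))
  have hsep : Algebra.IsSeparable (FractionRing (MvPolynomial t K)) F := inferInstance
  have e1 : Algebra.FormallyEtale (MvPolynomial t K) (FractionRing (MvPolynomial t K)) :=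
    Algebra.FormallyEtale.of_isLocalization (nonZeroDivisors (MvPolynomial t K))
  have e2 : Algebra.FormallyEtale (FractionRing (MvPolynomial t K)) F :=
    Algebra.FormallyEtale.of_isSeparable _ _
  have e3 : Algebra.FormallyEtale (MvPolynomial t K) F :=
    Algebra.FormallyEtale.comp (MvPolynomial t K) (FractionRing (MvPolynomial t K)) F
  let f0 : t → F := fun y => if h : ∃ b, x b = y then w h.choose else 0
  let d : Derivation K (MvPolynomial t K) F := mkDerivation K f0
  let L' : F ⊗[MvPolynomial t K] Ω[MvPolynomial t K⁄K] →ₗ[F] F :=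
    LinearMap.liftBaseChange F d.liftKaehlerDifferential
  let D : Derivation K F F := (L' ∘ₗ
    (KaehlerDifferential.tensorKaehlerEquivOfFormallyEtale K
      (MvPolynomial t K) F).symm.toLinearMap).compDer (KaehlerDifferential.D K F)
  have hD : ∀ s : MvPolynomial t K, D (φ s) = d s := by
    intro s
    change L' ((KaehlerDifferential.tensorKaehlerEquivOfFormallyEtale K
      (MvPolynomial t K) F).symm (KaehlerDifferential.D K F (algebraMap (MvPolynomial t K) F s)))
        = d s
    rw [KaehlerDifferential.tensorKaehlerEquivOfFormallyEtale_symm_D_algebraMap]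
    simp [L']
  refine ⟨D, fun b => ?_⟩
  have hb : x b ∈ t := hst ⟨b, rfl⟩
  have h1 : φ (X ⟨x b, hb⟩) = x b := by simp [φ]
  have h2 := hD (X ⟨x b, hb⟩)
  rw [h1] at h2
  rw [h2]
  change mkDerivation K f0 (X ⟨x b, hb⟩) = w b
  rw [mkDerivation_X]
  have h3 : ∃ b', x b' = ((⟨x b, hb⟩ : t) : F) := ⟨b, rfl⟩
  change (if h : ∃ b', x b' = ((⟨x b, hb⟩ : t) : F) then w h.choose else 0) = w b
  rw [dif_pos h3]
  congr 1
  exact hx.injective h3.choose_spec

end Pool.Agent.Q298.SM
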