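import Pool.Agent.Q298.SM.Bas
import Pool.Agent.Q298.SM.Der

/-!
Project SM, job E: singular points by derivations
-/

set_option autoImplicit false

namespace Pool.Agent.Q298.SM

open Finset Function MvPolynomial
open Pool.Agent.Q35.SM

section

variable {K : Type} [Field K] {ι : Type} [Fintype ι] [DecidableEq ι] {n : ι → ℕ}

theorem der_prod {F : Type} [Field F] [Algebra K F] (D : Derivation K F F) (s : Finset ι)
    (f : ι → F) : D (∏ i ∈ s, f i) = ∑ i ∈ s, D (f i) * ∏ l ∈ s.erase i, f l := by
  induction s using Finset.induction_on with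
  | empty => simp
  | insert a s ha ih =>
    rw [Finset.prod_insert ha, D.leibniz, ih, Finset.sum_insert ha, Finset.erase_insert ha,
      smul_eq_mul, smul_eq_mul, Finset.mul_sum, add_comm]
    congr 1
    · ring
    · refine Finset.sum_congr rfl fun i hi => ?_
      have hne : a ≠ i := by
        rintro rfl
        exact ha hi
      rw [Finset.erase_insert_of_ne hne, Finset.prod_insert
        (fun h => ha (Finset.mem_of_mem_erase h))]
      ring

theorem ev_update {F : Type} [Field F] [Algebra K F] (c : Cof K n) (z : Vs F n) (i : ι)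
    (w : Fin (n i + 1) → F) : ev F c (update z i w) =
      ∑ a, algebraMap K F (c a) * (w (a i) * ∏ l ∈ univ.erase i, z l (a l)) := by
  unfold ev
  refine Finset.sum_congr rfl fun a _ => ?_
  congr 1
  rw [← Finset.mul_prod_erase _ _ (Finset.mem_univ i), update_self]
  congr 1
  refine Finset.prod_congr rfl fun l hl => ?_
  rw [update_of_ne (Finset.ne_of_mem_erase hl)]

theorem der_ev {F : Type} [Field F] [Algebra K F] (D : Derivation K F F) (c : Cof K n)
    (z : Vs F n) : D (ev F c z) = ∑ i, ev F c (update z i (fun a => D (z i a))) := by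
  simp only [ev_update]
  rw [Finset.sum_comm]
  unfold ev
  rw [map_sum]
  refine Finset.sum_congr rfl fun a _ => ?_
  rw [← Algebra.smul_def, D.map_smul, der_prod, Algebra.smul_def, Finset.mul_sum]

theorem card_block (l : ι) : (univ.filter fun v : Var n => v.1 = l).card ≤ n l + 1 := by
  have h : (univ.filter fun v : Var n => v.1 = l) ⊆
      univ.image (fun a : Fin (n l + 1) => (⟨l, a⟩ : Var n)) := by
    rintro ⟨l', a⟩ hv
    have : l' = l := (Finset.mem_filter.1 hv).2
    subst this
    exact Finset.mem_image.2 ⟨a, Finset.mem_univ _, rfl⟩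
  refine (Finset.card_le_card h).trans (Finset.card_image_le.trans ?_)
  rw [Finset.card_univ, Fintype.card_fin]

theorem card_out (j : ι) (r : ℕ) (hr : 1 ≤ r) (B : Finset (Var n))
    (hB : ∀ l, l ≠ j → n l + 2 ≤ (B.filter fun v => v.1 = l).card + r) :
    (univ.filter fun v : Var n => v.1 ≠ j ∧ v ∉ B).card ≤ (Fintype.card ι - 1) * (r - 1) := by
  have h1 : (univ.filter fun v : Var n => v.1 ≠ j ∧ v ∉ B).card =
      ∑ l ∈ univ.erase j, ((univ.filter fun v : Var n => v.1 ≠ j ∧ v ∉ B).filter
        fun v => v.1 = l).card := by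
    apply Finset.card_eq_sum_card_fiberwise
    intro v hv
    exact Finset.mem_coe.2 (Finset.mem_erase.2
      ⟨(Finset.mem_filter.1 (Finset.mem_coe.1 hv)).2.1, Finset.mem_univ _⟩)
  rw [h1]
  have h2 : ∀ l ∈ univ.erase j, ((univ.filter fun v : Var n => v.1 ≠ j ∧ v ∉ B).filter
        fun v => v.1 = l).card ≤ r - 1 := by
    intro l hl
    have hlj := Finset.ne_of_mem_erase hl
    have h3 := hB l hlj
    have h4 : Disjoint ((univ.filter fun v : Var n => v.1 ≠ j ∧ v ∉ B).filter
        fun v => v.1 = l) (B.filter fun v => v.1 = l) := by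
      rw [Finset.disjoint_left]
      intro v hv hv'
      exact (Finset.mem_filter.1 (Finset.mem_filter.1 hv).1).2.2 (Finset.mem_filter.1 hv').1
    have h5 : ((univ.filter fun v : Var n => v.1 ≠ j ∧ v ∉ B).filter
        fun v => v.1 = l) ∪ (B.filter fun v => v.1 = l) ⊆
        (univ.filter fun v : Var n => v.1 = l) := by
      intro v hv
      rcases Finset.mem_union.1 hv with hv | hv
      · exact Finset.mem_filter.2 ⟨Finset.mem_univ _, (Finset.mem_filter.1 hv).2⟩
      · exact Finset.mem_filter.2 ⟨Finset.mem_univ _, (Finset.mem_filter.1 hv).2⟩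
    have h6 := (Finset.card_le_card h5).trans (card_block l)
    rw [Finset.card_union_of_disjoint h4] at h6
    omega
  refine (Finset.sum_le_sum h2).trans ?_
  rw [Finset.sum_const, Finset.card_erase_of_mem (Finset.mem_univ j), Finset.card_univ,
    smul_eq_mul]

end

/-- job SM-E -/
theorem se : S_E := by
  classical
  intro K _ _ ι _ _ n k r c j F _ _ x μ B hr hrn hμ hx hBj hB hind hdim
  obtain ⟨t0, ht0⟩ : ∃ t, μ t ≠ 0 := by
    by_contra h
    push Not at h
    exact hμ (funext h)
  -- the conditions
  let J : Type := {t : Fin k // t ≠ t0} ⊕ {v : Var n // v.1 ≠ j ∧ v ∉ B}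
  let Φ : Fin k → (Fin (n j + 1) → F) →ₗ[F] F := fun t => (evM F (c t)).toLinearMap x j
  have hΦ : ∀ t y, Φ t y = ev F (c t) (update x j y) := by
    intro t y
    change (evM F (c t)).toLinearMap x j y = _
    rw [MultilinearMap.toLinearMap_apply, evM_apply]
  let Ψ : Var n → (Fin (n j + 1) → F) →ₗ[F] F := fun v =>
    ∑ t, μ t • (evM F (c t)).toLinearMap (update x v.1 (Pi.single v.2 1)) j
  have hΨ : ∀ v y, v.1 ≠ j → Ψ v y =
      ∑ t, μ t * ev F (c t) (update (update x j y) v.1 (Pi.single v.2 1)) := by
    intro v y hv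
    change (∑ t, μ t • (evM F (c t)).toLinearMap (update x v.1 (Pi.single v.2 1)) j) y = _
    rw [LinearMap.sum_apply]
    refine Finset.sum_congr rfl fun t _ => ?_
    rw [LinearMap.smul_apply, MultilinearMap.toLinearMap_apply, evM_apply, smul_eq_mul,
      update_comm (Ne.symm hv)]
  let L : (Fin (n j + 1) → F) →ₗ[F] (J → F) :=
    LinearMap.pi fun q => Sum.elim (fun t => Φ t.1) (fun v => Ψ v.1) q
  have hcard : Module.finrank F (J → F) < Module.finrank F (Fin (n j + 1) → F) := by
    rw [Module.finrank_pi, Module.finrank_pi, Fintype.card_fin]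
    change Fintype.card ({t : Fin k // t ≠ t0} ⊕ {v : Var n // v.1 ≠ j ∧ v ∉ B}) < _
    rw [Fintype.card_sum, Fintype.card_subtype_compl, Fintype.card_fin, Fintype.card_subtype_eq,
      Fintype.card_subtype]
    have h1 := card_out j r hr B hB
    have h2 : 0 < k := t0.pos
    omega
  obtain ⟨y, hy, hy0⟩ := Submodule.exists_mem_ne_zero_of_ne_bot
    (LinearMap.ker_ne_bot_of_finrank_lt hcard : LinearMap.ker L ≠ ⊥)
  rw [LinearMap.mem_ker] at hy
  have hy1 : ∀ t, t ≠ t0 → ev F (c t) (update x j y) = 0 := by
    intro t ht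
    rw [← hΦ]
    exact congrFun hy (Sum.inl ⟨t, ht⟩)
  have hy2 : ∀ v : Var n, v.1 ≠ j → v ∉ B → Ψ v y = 0 := by
    intro v hv hvB
    exact congrFun hy (Sum.inr ⟨v, hv, hvB⟩)
  have hy3 : ∀ t, ev F (c t) (update x j y) = 0 := by
    intro t
    by_cases ht : t = t0
    · subst ht
      have h1 := hx y
      rw [Finset.sum_eq_single t (fun t' _ h => by rw [hy1 t' h, mul_zero])
        (fun h => absurd (Finset.mem_univ _) h)] at h1
      exact (mul_eq_zero.1 h1).resolve_left ht0
    · exact hy1 t ht
  -- the relation given by a derivation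
  have hrel : ∀ D : Derivation K F F, ∑ i ∈ univ.erase j, ∑ a, D (x i a) * Ψ ⟨i, a⟩ y = 0 := by
    intro D
    have h1 := congrArg D (hx y)
    rw [map_sum, map_zero] at h1
    have h2 : ∀ t, D (μ t * ev F (c t) (update x j y)) =
        ∑ i, μ t * ev F (c t) (update (update x j y) i (fun a => D (update x j y i a))) := by
      intro t
      rw [D.leibniz, hy3 t, zero_smul, add_zero, ← hy3 t, smul_eq_mul, der_ev, Finset.mul_sum]
    rw [Finset.sum_congr rfl fun t _ => h2 t, Finset.sum_comm,
      ← Finset.add_sum_erase _ _ (Finset.mem_univ j)] at h1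
    have h3 : ∑ t, μ t * ev F (c t) (update (update x j y) j (fun a => D (update x j y j a))) =
        0 := by
      have := hx (fun a => D (update x j y j a))
      rw [← this]
      refine Finset.sum_congr rfl fun t _ => ?_
      rw [update_idem]
    rw [h3, zero_add] at h1
    rw [← h1]
    refine Finset.sum_congr rfl fun i hi => ?_
    have hij := Finset.ne_of_mem_erase hi
    have h4 : ∀ t, μ t * ev F (c t)
        (update (update x j y) i (fun a => D (update x j y i a))) =
        ∑ a, D (x i a) * (μ t * ev F (c t) (update (update x j y) i (Pi.single a 1))) := by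
      intro t
      rw [ev_lin, Finset.mul_sum]
      refine Finset.sum_congr rfl fun a _ => ?_
      rw [update_of_ne hij]
      ring
    rw [Finset.sum_congr rfl fun t _ => h4 t, Finset.sum_comm]
    refine Finset.sum_congr rfl fun a _ => ?_
    rw [hΨ ⟨i, a⟩ y hij, Finset.mul_sum]
  have hy4 : ∀ v : Var n, v.1 ≠ j → Ψ v y = 0 := by
    intro v hv
    by_cases hvB : v ∈ B
    · obtain ⟨D, hD⟩ := exists_der K F (fun v : B => x v.1.1 v.1.2) hind
        (fun w => if w = ⟨v, hvB⟩ then 1 else 0)
      have h1 := hrel D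
      rw [← Finset.sum_sigma (univ.erase j) (fun _ => univ)
        (fun w : Var n => D (x w.1 w.2) * Ψ w y)] at h1
      rw [Finset.sum_eq_single v] at h1
      · have h2 := hD ⟨v, hvB⟩
        rw [if_pos rfl] at h2
        rw [h2, one_mul] at h1
        exact h1
      · intro w hw hne
        have hwj : w.1 ≠ j := Finset.ne_of_mem_erase (Finset.mem_sigma.1 hw).1
        by_cases hwB : w ∈ B
        · have h2 := hD ⟨w, hwB⟩
          rw [if_neg (fun h => hne (congrArg Subtype.val h))] at h2
          rw [h2, zero_mul]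
        · rw [hy2 w hwj hwB, mul_zero]
      · intro hv'
        exact absurd (Finset.mem_sigma.2 ⟨Finset.mem_erase.2 ⟨hv, Finset.mem_univ _⟩,
          Finset.mem_univ _⟩) hv'
    · exact hy2 v hv hvB
  refine ⟨update x j y, ?_, hy3, ?_⟩
  · intro i
    by_cases hij : i = j
    · subst hij
      rw [update_self]
      exact hy0
    · rw [update_of_ne hij]
      have h1 := hB i hij
      have h2 := hrn i
      have h3 : 0 < (B.filter fun v => v.1 = i).card := by omega
      obtain ⟨v, hv⟩ := Finset.card_pos.1 h3
      obtain ⟨hvB, hvi⟩ := Finset.mem_filter.1 hv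
      subst hvi
      intro h0
      have h4 := hind.ne_zero ⟨v, hvB⟩
      exact h4 (congrFun h0 v.2)
  · intro i v
    by_cases hij : i = j
    · subst hij
      simp only [update_idem]
      exact hx v
    · have h4 : ∀ t, μ t * ev F (c t) (update (update x j y) i v) =
          ∑ a, v a * (μ t * ev F (c t) (update (update x j y) i (Pi.single a 1))) := by
        intro t
        rw [ev_lin, Finset.mul_sum]
        refine Finset.sum_congr rfl fun a _ => ?_
        ring
      rw [Finset.sum_congr rfl fun t _ => h4 t, Finset.sum_comm]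
      refine Finset.sum_eq_zero fun a _ => ?_
      rw [← Finset.mul_sum, ← hΨ ⟨i, a⟩ y hij, hy4 ⟨i, a⟩ hij, mul_zero]

end Pool.Agent.Q298.SM
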