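import Pool.Agent.Q298.SM.Bas

/-!
Project SM, job F: specialisation of singular points
-/

set_option autoImplicit false

namespace Pool.Agent.Q298.SM

open Finset Function MvPolynomial
open Pool.Agent.Q35.SM

theorem exists_hom_alg (K : Type) [Field K] (L : Type) [Field L] [Algebra K L]
    [Algebra.IsAlgebraic K L] : Nonempty (L →ₐ[K] AlgebraicClosure K) :=
  ⟨IsAlgClosed.lift⟩

/-- a finitely generated subalgebra of a field maps to the algebraic closure -/
theorem exists_hom (K : Type) [Field K] (F : Type) [Field F] [Algebra K F] (S : Set F)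
    (hS : S.Finite) : Nonempty (Algebra.adjoin K S →ₐ[K] AlgebraicClosure K) := by
  set R := Algebra.adjoin K S with hR
  have hft : Algebra.FiniteType K R := by
    rw [← Subalgebra.fg_iff_finiteType]
    obtain ⟨T, hT⟩ := hS.exists_finset_coe
    exact ⟨T, by rw [hT]⟩
  obtain ⟨m, hm⟩ := Ideal.exists_maximal R
  let _ : Field (R ⧸ m) := Ideal.Quotient.field m
  have h1 : Algebra.FiniteType K (R ⧸ m) :=
    Algebra.FiniteType.of_surjective (Ideal.Quotient.mkₐ K m) (Ideal.Quotient.mkₐ_surjective K m)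
  have h2 : Module.Finite K (R ⧸ m) := finite_of_finite_type_of_isJacobsonRing K (R ⧸ m)
  have h3 : Algebra.IsAlgebraic K (R ⧸ m) := Algebra.IsAlgebraic.of_finite K (R ⧸ m)
  obtain ⟨φ⟩ := exists_hom_alg K (R ⧸ m)
  exact ⟨φ.comp (Ideal.Quotient.mkₐ K m)⟩

/-- job SM-F -/
theorem sf : S_F := by
  classical
  intro K _ _ ι _ _ n k c F _ _ z μ hμ hz hev hder hsm
  have hz' : ∀ i, ∃ a, z i a ≠ 0 := fun i => by
    by_contra h
    push Not at h
    exact hz i (funext h)
  choose a0 ha0 using hz'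
  obtain ⟨t0, ht0⟩ : ∃ t, μ t ≠ 0 := by
    by_contra h
    push Not at h
    exact hμ (funext h)
  set S : Set F := (Set.range fun v : Var n => z v.1 v.2) ∪ Set.range μ ∪
    (Set.range fun i : ι => (z i (a0 i))⁻¹) ∪ {(μ t0)⁻¹} with hS
  have hSf : S.Finite := by
    refine Set.Finite.union (Set.Finite.union (Set.Finite.union ?_ ?_) ?_) ?_
    · exact Set.finite_range _
    · exact Set.finite_range _
    · exact Set.finite_range _
    · exact Set.finite_singleton _
  obtain ⟨ψ⟩ := exists_hom K F S hSf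
  set R := Algebra.adjoin K S with hR
  have h1 : ∀ i a, z i a ∈ R := fun i a =>
    Algebra.subset_adjoin (Or.inl (Or.inl (Or.inl ⟨⟨i, a⟩, rfl⟩)))
  have h2 : ∀ t, μ t ∈ R := fun t => Algebra.subset_adjoin (Or.inl (Or.inl (Or.inr ⟨t, rfl⟩)))
  have h3 : ∀ i, (z i (a0 i))⁻¹ ∈ R := fun i => Algebra.subset_adjoin (Or.inl (Or.inr ⟨i, rfl⟩))
  have h4 : (μ t0)⁻¹ ∈ R := Algebra.subset_adjoin (Or.inr rfl)
  let zR : Vs R n := fun i a => ⟨z i a, h1 i a⟩
  let μR : Fin k → R := fun t => ⟨μ t, h2 t⟩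
  have hval : ∀ (x : Vs R n) (t : Fin k), ev F (c t) (fun i a => (R.val (x i a))) = R.val (ev R (c t) x) :=
    fun x t => ev_map R.val (c t) x
  have hzz : (fun i a => R.val (zR i a)) = z := rfl
  -- the equations in `R`
  have e1 : ∀ t, ev R (c t) zR = 0 := by
    intro t
    have := hval zR t
    rw [hzz, hev t] at this
    exact Subtype.ext this.symm
  have e2 : ∀ i a, ∑ t, μR t * ev R (c t) (update zR i (Pi.single a 1)) = 0 := by
    intro i a
    apply Subtype.ext
    have h5 : R.val (∑ t, μR t * ev R (c t) (update zR i (Pi.single a 1))) =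
        ∑ t, μ t * ev F (c t) (update z i (Pi.single a 1)) := by
      rw [map_sum]
      refine Finset.sum_congr rfl fun t _ => ?_
      rw [map_mul, ← hval, upd_single]
      rfl
    have h6 := hder i (Pi.single a 1)
    rw [← h5] at h6
    exact h6
  -- the point over the algebraic closure
  have n1 : ∀ i, (fun l a => ψ (zR l a)) i ≠ 0 := by
    intro i h0
    have h5 := congrFun h0 (a0 i)
    have h6 : zR i (a0 i) * ⟨(z i (a0 i))⁻¹, h3 i⟩ = 1 := Subtype.ext (mul_inv_cancel₀ (ha0 i))
    have h7 := congrArg ψ h6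
    rw [map_mul, map_one] at h7
    simp only [Pi.zero_apply] at h5
    rw [h5, zero_mul] at h7
    exact zero_ne_one h7
  have n2 : (fun t => ψ (μR t)) ≠ 0 := by
    intro h0
    have h5 := congrFun h0 t0
    have h6 : μR t0 * ⟨(μ t0)⁻¹, h4⟩ = 1 := Subtype.ext (mul_inv_cancel₀ ht0)
    have h7 := congrArg ψ h6
    rw [map_mul, map_one] at h7
    simp only [Pi.zero_apply] at h5
    rw [h5, zero_mul] at h7
    exact zero_ne_one h7
  have n3 : ∀ t, ev (AlgebraicClosure K) (c t) (fun l a => ψ (zR l a)) = 0 := by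
    intro t
    rw [ev_map, e1, map_zero]
  obtain ⟨i, v, hv⟩ := hsm (fun l a => ψ (zR l a)) n1 n3 (fun t => ψ (μR t)) n2
  apply hv
  have h8 : ∀ a, ∑ t, ψ (μR t) * ev (AlgebraicClosure K) (c t)
      (update (fun l a => ψ (zR l a)) i (Pi.single a 1)) = 0 := by
    intro a
    have := congrArg ψ (e2 i a)
    rw [map_sum, map_zero] at this
    rw [← this]
    refine Finset.sum_congr rfl fun t _ => ?_
    rw [map_mul, ← ev_map, upd_single]
  have h9 : ∀ t, ψ (μR t) * ev (AlgebraicClosure K) (c t)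
      (update (fun l a => ψ (zR l a)) i v) = ∑ a, v a * (ψ (μR t) * ev (AlgebraicClosure K) (c t)
      (update (fun l a => ψ (zR l a)) i (Pi.single a 1))) := by
    intro t
    rw [ev_lin, Finset.mul_sum]
    refine Finset.sum_congr rfl fun a _ => ?_
    ring
  simp only [h9]
  rw [Finset.sum_comm]
  refine Finset.sum_eq_zero fun a _ => ?_
  rw [← Finset.mul_sum, h8, mul_zero]

end Pool.Agent.Q298.SM
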