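import Pool.Agent.Q298.SM.T1

/-!
Project SM, job T: existence of the towers
-/

set_option autoImplicit false

namespace Pool.Agent.Q298.SM

open Finset Function MvPolynomial
open Pool.Agent.Q35.SM

section

variable {K : Type} [Field K] {ι : Type} [Fintype ι] [DecidableEq ι] {n : ι → ℕ}

/-- partial tower -/
structure PT (k r m : ℕ) (c : Fin k → Cof K n) (G : Finset ι → Finset (Pol K n)) : Prop where
  hom : ∀ I, ∀ g ∈ G I, MH g
  dep : ∀ I, ∀ g ∈ G I, ∀ v ∈ g.vars, v.1 ∈ I
  base : ∀ j, ∀ (F : Type) [Field F] [Algebra K F] (x : Vs F n),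
    Opn F (G (univ.erase j)) x ↔
      LinearIndependent F fun (t : Fin k) (a : Fin (n j + 1)) =>
        ev F (c t) (update x j (Pi.single a 1))
  step : ∀ I : Finset ι, I.card + 2 ≤ Fintype.card ι → Fintype.card ι ≤ I.card + 1 + m →
    ∀ (F : Type) [Field F] [Algebra K F]
    (x : Vs F n), Opn F (G I) x ↔ ∀ i, i ∉ I → Cut F r i (G (insert i I)) x

theorem pt_zero (k r : ℕ) (c : Fin k → Cof K n) : ∃ G : Finset ι → Finset (Pol K n),
    PT k r 0 c G := by
  classical
  choose M hM1 hM2 hM3 using base_ex k c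
  refine ⟨fun I => (univ.filter fun j => I = univ.erase j).biUnion M, ?_, ?_, ?_, ?_⟩
  · intro I g hg
    obtain ⟨j, hj, hg⟩ := Finset.mem_biUnion.1 hg
    exact hM1 j g hg
  · intro I g hg v hv
    obtain ⟨j, hj, hg⟩ := Finset.mem_biUnion.1 hg
    have := (Finset.mem_filter.1 hj).2
    rw [this]
    exact hM2 j g hg v hv
  · intro j F _ _ x
    have h1 : (univ.filter fun j' => (univ.erase j : Finset ι) = univ.erase j') = {j} := by
      ext j'
      rw [Finset.mem_filter, Finset.mem_singleton]
      constructor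
      · rintro ⟨-, h⟩
        by_contra hne
        have h2 : j' ∈ (univ.erase j : Finset ι) := Finset.mem_erase.2 ⟨hne, Finset.mem_univ _⟩
        rw [h] at h2
        exact Finset.notMem_erase _ _ h2
      · rintro rfl
        exact ⟨Finset.mem_univ _, rfl⟩
    rw [h1, Finset.singleton_biUnion]
    exact hM3 j F x
  · intro I h1 h2
    omega

theorem opn_prod (F : Type) [Field F] [Algebra K F] {J : Type} [Fintype J] [DecidableEq J]
    (Q : J → Finset (Pol K n)) (x : Vs F n) [DecidableEq (Pol K n)] :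
    Opn F ((Fintype.piFinset Q).image fun q => ∏ i, q i) x ↔ ∀ i, Opn F (Q i) x := by
  have hpv : ∀ q : J → Pol K n, pv F (∏ i, q i) x = ∏ i, pv F (q i) x := by
    intro q
    unfold pv
    rw [map_prod]
  constructor
  · rintro ⟨g, hg, hne⟩ i
    obtain ⟨q, hq, rfl⟩ := Finset.mem_image.1 hg
    rw [hpv, Finset.prod_ne_zero_iff] at hne
    exact ⟨q i, (Fintype.mem_piFinset.1 hq) i, hne i (Finset.mem_univ _)⟩
  · intro h
    choose q hq1 hq2 using h
    refine ⟨_, Finset.mem_image.2 ⟨q, Fintype.mem_piFinset.2 hq1, rfl⟩, ?_⟩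
    rw [hpv, Finset.prod_ne_zero_iff]
    exact fun i _ => hq2 i

theorem pt_succ (hA : S_A) [CharZero K] (k r m : ℕ) (hr : 1 ≤ r) (c : Fin k → Cof K n)
    (G : Finset ι → Finset (Pol K n)) (hG : PT k r m c G) :
    ∃ G' : Finset ι → Finset (Pol K n), PT k r (m + 1) c G' := by
  classical
  choose Q hQ1 hQ2 hQ3 using fun (I : Finset ι) (i : ι) =>
    hA K ι n r i (G (insert i I)) hr (hG.hom _)
  refine ⟨fun I => if I.card + 2 + m = Fintype.card ι then
    (Fintype.piFinset (fun i : {i // i ∉ I} => Q I i)).image (fun q => ∏ i, q i) else G I,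
    ?_, ?_, ?_, ?_⟩
  · intro I g hg
    beta_reduce at hg
    split_ifs at hg with h
    · obtain ⟨q, hq, rfl⟩ := Finset.mem_image.1 hg
      have h1 : ∀ i, ∃ δ : ι → ℕ, IsWeightedHomogeneous (wt n) (q i) δ := fun i =>
        (mh_iff _).1 (hQ1 I i _ (Fintype.mem_piFinset.1 hq i))
      choose δ hδ using h1
      exact (mh_iff _).2 ⟨_, IsWeightedHomogeneous.prod _ _ δ fun i _ => hδ i⟩
    · exact hG.hom I g hg
  · intro I g hg v hv
    beta_reduce at hg
    split_ifs at hg with h
    · obtain ⟨q, hq, rfl⟩ := Finset.mem_image.1 hg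
      have h1 := vars_prod (s := univ) (fun i => q i) hv
      obtain ⟨i, -, hi⟩ := Finset.mem_biUnion.1 h1
      obtain ⟨h2, g', hg', hv'⟩ := hQ2 I i _ (Fintype.mem_piFinset.1 hq i) v hi
      have h3 := hG.dep _ g' hg' v hv'
      rw [Finset.mem_insert] at h3
      tauto
    · exact hG.dep I g hg v hv
  · intro j F _ _ x
    have hc : (univ.erase j : Finset ι).card + 2 + m ≠ Fintype.card ι := by
      rw [Finset.card_erase_of_mem (Finset.mem_univ j), Finset.card_univ]
      omega
    rw [if_neg hc]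
    exact hG.base j F x
  · intro I h1 h2 F _ _ x
    have hins : ∀ i, i ∉ I → (insert i I).card + 2 + m ≠ Fintype.card ι := by
      intro i hi
      rw [Finset.card_insert_of_notMem hi]
      omega
    by_cases h : I.card + 2 + m = Fintype.card ι
    · rw [if_pos h, opn_prod]
      constructor
      · intro h3 i hi
        rw [if_neg (hins i hi)]
        exact (hQ3 I i F x).1 (h3 ⟨i, hi⟩)
      · intro h3 i
        have := h3 i.1 i.2
        rw [if_neg (hins i.1 i.2)] at this
        exact (hQ3 I i F x).2 this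
    · rw [if_neg h, hG.step I h1 (by omega) F x]
      constructor
      · intro h3 i hi
        rw [if_neg (hins i hi)]
        exact h3 i hi
      · intro h3 i hi
        have := h3 i hi
        rw [if_neg (hins i hi)] at this
        exact this

end

/-- job SM-T -/
theorem st (hA : Pool.Agent.Q35.SM.S_A) : Pool.Agent.Q35.SM.S_T := by
  intro K _ _ ι _ _ n k r c _ hr
  have h : ∀ m, ∃ G : Finset ι → Finset (Pol K n), PT k r m c G := by
    intro m
    induction m with
    | zero => exact pt_zero k r c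
    | succ m ih =>
      obtain ⟨G, hG⟩ := ih
      exact pt_succ hA k r m hr c G hG
  obtain ⟨G, hG⟩ := h (Fintype.card ι)
  exact ⟨G, hG.hom, hG.dep, hG.base, fun I hI => hG.step I hI (by omega)⟩

end Pool.Agent.Q298.SM
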